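import Pool.Agent.MP_842ee2_lc.Res.Main

/-! In resilient theories the type counting exponent is `O(log k)`. -/

namespace Pool.Agent.Results.MP_842ee2_lc.ResilientLog

open FirstOrder FirstOrder.Language Pool.Agent.MP_842ee2_lc

universe u v w

theorem result (L : FirstOrder.Language.{u, v}) (T : L.Theory) (α β : Type)
    (φ : L.Formula (α ⊕ β)) (h : ¬ HasStar.{u, v, max u v w} T (conj φ 2) 2) :
    ∃ c : ℝ, ∀ k : ℕ, ∃ C : ℝ, ∀ (M : Theory.ModelType.{u, v, max u v w} T)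
      (A : Finset (β → M)) (F : Finset (Finset (β → M))),
      A.Nonempty → IsFamily φ M k A F →
        (F.card : ℝ) ≤ C * (A.card : ℝ) ^ (c * Real.log (k + 1)) := by
  obtain ⟨n, hn⟩ := Res.count.{u, v, w} T φ h
  refine ⟨2 * n * (2 * n + 4), fun k => ?_⟩
  obtain ⟨t, ht1, ht2⟩ := Res.exists_rounds n k
  obtain ⟨C, hC⟩ := hn k t ht1
  refine ⟨C, fun M A F hA hF => ?_⟩
  have h2 : (F.card : ℝ) ≤ (C : ℝ) * (A.card : ℝ) ^ ((2 * n * t : ℕ) : ℝ) := by
    rw [Real.rpow_natCast]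
    exact_mod_cast hC M A F hA hF
  refine h2.trans (mul_le_mul_of_nonneg_left ?_ (Nat.cast_nonneg _))
  refine Real.rpow_le_rpow_of_exponent_le (by exact_mod_cast hA.card_pos) ?_
  push_cast
  rw [mul_assoc (2 * (n : ℝ))]
  exact mul_le_mul_of_nonneg_left ht2 (by positivity)

end Pool.Agent.Results.MP_842ee2_lc.ResilientLog
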