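import Pool.Agent.MP_842ee2_lc.Model

/-! Without 2-TP2 for the doubled conjunction, the type counting exponent is `O(k ^ (2/3))`. -/

namespace Pool.Agent.Results.MP_842ee2_lc.TwoThirds

open FirstOrder FirstOrder.Language Pool.Agent.MP_842ee2_lc

universe u v w

theorem result (L : FirstOrder.Language.{u, v}) (T : L.Theory) (α β : Type)
    (φ : L.Formula (α ⊕ β)) (t : ℕ) (h : ¬ HasTP2.{u, v, w} T (conj φ (2 * t)) 2) :
    ∃ c : ℝ, ∀ k : ℕ, ∃ C : ℝ, ∀ (M : Theory.ModelType.{u, v, w} T)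
      (A : Finset (Fin t × β → M)) (F : Finset (Finset (Fin t × β → M))),
      A.Nonempty → IsFamily (conj φ t) M k A F →
        (F.card : ℝ) ≤ C * (A.card : ℝ) ^ (c * (k : ℝ) ^ (2 / 3 : ℝ)) := by
  rw [two_mul] at h
  obtain ⟨n, hn⟩ := not_forall.1 fun h' => h (hasTP2_of_finArr T _ h')
  refine ⟨((2 * (n + 1) + 2 * (n + 1) ^ 3 : ℕ) : ℝ) * 4, fun k => ?_⟩
  obtain ⟨s, hs1, hs2⟩ := exists_cube k
  obtain ⟨c, hc⟩ := cube_bound.{w} (n + 1) s n.succ_pos
  refine ⟨(c + 1 : ℕ), fun M A F hA hF => ?_⟩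
  have hA1 : 1 ≤ A.card := hA.card_pos
  set e := (2 * (n + 1) + 2 * (n + 1) ^ 3) * s ^ 2 with he
  have hp : 1 ≤ A.card ^ e := Nat.one_le_pow _ _ hA1
  have h1 : F.card ≤ (c + 1) * A.card ^ e := by
    refine family_bound (ι := Fin s × Fin (s * s)) (n := n + 1) (by simpa using hs1) hF
      (by nlinarith) (fun a b h1 h2 => hn ⟨M, finArr_of_arr a b h1 h2⟩) fun K hK hN => ?_
    have := hc A (by simpa using hA1) _ K hK hN
    rw [Fintype.card_coe] at this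
    exact this.trans (Nat.mul_le_mul_right _ c.le_succ)
  have h2 : (F.card : ℝ) ≤ ((c + 1 : ℕ) : ℝ) * (A.card : ℝ) ^ ((e : ℕ) : ℝ) := by
    rw [Real.rpow_natCast]
    exact_mod_cast h1
  refine h2.trans (mul_le_mul_of_nonneg_left ?_ (Nat.cast_nonneg _))
  refine Real.rpow_le_rpow_of_exponent_le (by exact_mod_cast hA1) ?_
  rw [he, Nat.cast_mul, mul_assoc, Nat.cast_pow]
  exact mul_le_mul_of_nonneg_left hs2 (Nat.cast_nonneg _)

end Pool.Agent.Results.MP_842ee2_lc.TwoThirds
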